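import Mathlib
import Pool.Agent.Helper72.AP.Final
import Pool.Agent.Helper95.AP.Four

set_option autoImplicit false
open MeasureTheory Real Set Filter Topology
open Pool.Agent.Helper95.PF Pool.Agent.Helper72.AP

namespace Pool.Agent.Results.MP_9ee088_an.AllParameters

/-- Standard maps `T(x, y) = (2x - y + a V'(x), x)` with a random potential `V = G + κ h_ω` of class `C^(2+s)`.
Almost surely the map has, for EVERY large `|a|`, all couplings `exp (- |a| ^ c) ≤ κ ≤ 1` and all backgrounds `G` in a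
set of finite entropy (a single function; a ball of analytic functions, which contains the potential of the
standard map), one weakly mixing component of measure at least `1 - |a| ^ (-c)`, with Lyapunov exponent
`∫ log |a V''|` up to `|a| ^ (-c)`; this fails for some parameter `|a| ≥ A` with probability at most `exp (- A ^ c)`.
The background `G` is arbitrary if `κ` is not small; `G''` is nondegenerate if `κ` is small. -/
theorem result (s : ℝ) (hs : 0 < s) (hs1 : s < 1) (χ : ℝ → ℝ) (hχ : ContDiff ℝ 3 χ)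
    (hχ1 : ∀ t, |t| ≤ 1 / 2 → χ t = 1) (hχ0 : ∀ t, 1 ≤ |t| → χ t = 0) :
    -- the noise is of class `C^(2+s)`
    (∃ C : ℝ, ∀ᵐ ω ∂law, Pot s C (noise χ s ω)) ∧
    -- the potential of the standard map is a possible background
    ((Pot s 40 fun x => -(Real.cos (2 * π * x) / (2 * π))) ∧
      (Nondeg 40 fun x => -(Real.cos (2 * π * x) / (2 * π))) ∧ Ana 40 fun x => -(Real.cos (2 * π * x) / (2 * π))) ∧
    -- (1) every large parameter, all couplings, all backgrounds in a set of finite entropy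
    (∀ R : ℝ, 1 ≤ R → ∀ k : ℕ, ∃ c A₀ : ℝ, 0 < c ∧ 0 < A₀ ∧ ∀ 𝒢 : Set (ℝ → ℝ), (∀ G ∈ 𝒢, Pot s R G) →
      Ent R k 𝒢 →
      (∀ A, A₀ ≤ A →
        law {ω | ∃ (a κ : ℝ) (G : ℝ → ℝ), A ≤ |a| ∧ Real.exp (-|a| ^ c) ≤ κ ∧ κ ≤ 1 ∧ G ∈ 𝒢 ∧
          (1 / R ≤ κ ∨ Nondeg R G) ∧ ¬ Good c a (fun x => G x + κ * noise χ s ω x)} ≤
          ENNReal.ofReal (Real.exp (-A ^ c))) ∧
      ∀ᵐ ω ∂law, ∃ A : ℝ, ∀ (a κ : ℝ) (G : ℝ → ℝ), A ≤ |a| → Real.exp (-|a| ^ c) ≤ κ → κ ≤ 1 → G ∈ 𝒢 →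
        (1 / R ≤ κ ∨ Nondeg R G) → Good c a (fun x => G x + κ * noise χ s ω x)) ∧
    -- single functions and balls of analytic functions have finite entropy
    (∀ R : ℝ, 1 ≤ R → ∀ (k : ℕ) (G : ℝ → ℝ), Ent R k {G}) ∧
    (∀ R : ℝ, 1 ≤ R → ∃ R' : ℝ, 1 ≤ R' ∧ (∀ G, Ana R G → Pot s R' G) ∧ Ent R' 2 {G | Ana R G}) ∧
    -- (2) almost every noise, all analytic backgrounds at once
    (∀ᵐ ω ∂law, ∀ R : ℝ, 1 ≤ R → ∃ c A : ℝ, 0 < c ∧ 0 < A ∧ ∀ (a κ : ℝ) (G : ℝ → ℝ), A ≤ |a| →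
      Real.exp (-|a| ^ c) ≤ κ → κ ≤ 1 → Ana R G → (1 / R ≤ κ ∨ Nondeg R G) →
      Good c a (fun x => G x + κ * noise χ s ω x)) :=
  ⟨noise_pot_ae hs hs1 hχ hχ1 hχ0, ⟨std_pot hs hs1.le, std_nondeg, std_ana⟩,
    fun _ hR k => Pool.Agent.Helper95.AP.main4 hs hs1 hχ hχ1 hχ0 hR k,
    fun _ hR k G => Pool.Agent.Helper95.AP.ent_single (zero_le_one.trans hR) k G,
    fun _ hR => ana_pot hs hs1 hR, ana_ae hs hs1 hχ hχ1 hχ0⟩

end Pool.Agent.Results.MP_9ee088_an.AllParameters
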