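import Mathlib
import Pool.Agent.Helper95.AU.Final
import Pool.Agent.Helper82.AN.Gev
import Pool.Agent.Helper82.QP.Tor

set_option autoImplicit false
open MeasureTheory Real Set Filter Topology

namespace Pool.Agent.Results.MP_9ee088_an.AnalyticForce

variable {d : ℕ}

/-- the standard map `S_a(x, y) = (2x - y + a sin 2πx, x)` of the torus `T² = (ℝ/ℤ)²`, where
`sin 2πx` is the imaginary part of `e^{2πix}` -/
noncomputable def std (a : ℝ) (z : UnitAddCircle × UnitAddCircle) : UnitAddCircle × UnitAddCircle :=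
  (z.1 + z.1 - z.2 + ((a * (fourier 1 z.1 : ℂ).im : ℝ) : UnitAddCircle), z.1)

/-- the standard map with the force `b` over the rotation by `α`:
`F(θ, z) = (θ + α, S_a z + (b(θ), 0))` on `T^d × T²` -/
noncomputable def skew (α : Fin d → UnitAddCircle) (a : ℝ) (b : (Fin d → UnitAddCircle) → ℝ)
    (p : (Fin d → UnitAddCircle) × (UnitAddCircle × UnitAddCircle)) :
    (Fin d → UnitAddCircle) × (UnitAddCircle × UnitAddCircle) :=
  (p.1 + α, std a p.2 + ((b p.1 : UnitAddCircle), 0))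

/-- the map `z ↦ S_a z + (t, 0)` lifted to the plane -/
noncomputable def lift (a t : ℝ) (z : ℝ × ℝ) : ℝ × ℝ :=
  (2 * z.1 - z.2 + a * Real.sin (2 * π * z.1) + t, z.1)

/-- the first `n` steps on the fibre of `θ`, lifted to the plane -/
noncomputable def liftn (α : Fin d → UnitAddCircle) (a : ℝ) (b : (Fin d → UnitAddCircle) → ℝ)
    (θ : Fin d → UnitAddCircle) : ℕ → ℝ × ℝ → ℝ × ℝ
  | 0 => id
  | n + 1 => fun z => lift a (b (θ + n • α)) (liftn α a b θ n z)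

/-- the function on `ℝ^d` defined by a function on the torus `T^d = (ℝ/ℤ)^d` -/
def lf (f : (Fin d → UnitAddCircle) → ℝ) (x : Fin d → ℝ) : ℝ := f fun m => (x m : UnitAddCircle)

/-- the law of independent random numbers `w i` with density `e^{-|x|}/2`, indexed by the functions
`cos 2πk·θ` (`i = (k, 0)`) and `sin 2πk·θ` (`i = (k, 1)`), `k ∈ ℤ^d` -/
noncomputable def law (d : ℕ) : Measure ((Fin d → ℤ) × Fin 2 → ℝ) :=
  Measure.infinitePi fun _ => volume.withDensity fun x : ℝ => ENNReal.ofReal (Real.exp (-|x|) / 2)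

/-- the function `cos 2πk·θ` or `sin 2πk·θ` -/
noncomputable def bas (i : (Fin d → ℤ) × Fin 2) (θ : Fin d → UnitAddCircle) : ℝ :=
  if i.2 = 0 then (fourier 1 (∑ m, i.1 m • θ m) : ℂ).re
  else (fourier 1 (∑ m, i.1 m • θ m) : ℂ).im

/-- the random function `N = ∑ e^{-|k|^γ} (w(k, 0) cos 2πk·θ + w(k, 1) sin 2πk·θ)`, `|k|` the
maximum norm -/
noncomputable def noise (γ : ℝ) (w : (Fin d → ℤ) × Fin 2 → ℝ) (θ : Fin d → UnitAddCircle) : ℝ :=
  ∑' i : (Fin d → ℤ) × Fin 2, Real.exp (-(‖i.1‖ ^ γ)) * w i * bas i θ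

/-- Hölder continuous -/
def Hoelder (f : (Fin d → UnitAddCircle) → ℝ) : Prop :=
  ∃ K r : ℝ, 0 < r ∧ ∀ x y, |f x - f y| ≤ K * dist x y ^ r

/-- `α` has rationally independent coordinates and is Diophantine: `‖j α‖ ≥ δ j^(-τ)`, `‖ ‖` the
distance (maximum norm) from `0` in `T^d` -/
def Dioph (δ τ : ℝ) (α : Fin d → UnitAddCircle) : Prop :=
  (∀ k : Fin d → ℤ, k ≠ 0 → ∑ m, k m • α m ≠ 0) ∧ ∀ j : ℕ, 1 ≤ j → δ * (j : ℝ) ^ (-τ) ≤ ‖j • α‖

/-- an invariant set `O` of measure at least `1 - |a|^(-κ)`, which is the whole phase space, where the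
skew product is ergodic, if `|q| ≥ |a|^(-1+ε)`; all eigenfunctions of the skew product on `O` are
multiples of characters of `T^d`, so it is ergodic on `O`; the exponent along the fibres is on `O`
almost everywhere a constant and differs from `log (π |a|)` by at most `|a|^(-κ)` -/
def Good (ε κ : ℝ) (α : Fin d → UnitAddCircle) (a q : ℝ) (b : (Fin d → UnitAddCircle) → ℝ) : Prop :=
  ∃ O : Set ((Fin d → UnitAddCircle) × (UnitAddCircle × UnitAddCircle)),
    MeasurableSet O ∧ skew α a b ⁻¹' O = O ∧ 1 - |a| ^ (-κ) ≤ volume.real O ∧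
    (|a| ^ (-1 + ε) ≤ |q| → O = univ ∧ Ergodic (skew α a b) volume) ∧
    (∀ (ξ : ℂ) (h : (Fin d → UnitAddCircle) × (UnitAddCircle × UnitAddCircle) → ℂ), Measurable h →
      (∀ᵐ p, p ∈ O → h (skew α a b p) = ξ * h p) →
      (∀ᵐ p, p ∈ O → h p = 0) ∨ ∃ (k : Fin d → ℤ) (c : ℂ), fourier 1 (∑ m, k m • α m) = ξ ∧
        ∀ᵐ p : (Fin d → UnitAddCircle) × (UnitAddCircle × UnitAddCircle), p ∈ O →
          h p = c * fourier 1 (∑ m, k m • p.1 m)) ∧
    ∃ L : ℝ, |L - Real.log (π * |a|)| ≤ |a| ^ (-κ) ∧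
      ∀ᵐ θ : Fin d → UnitAddCircle, ∀ᵐ z : ℝ × ℝ,
        (θ, ((z.1 : UnitAddCircle), (z.2 : UnitAddCircle))) ∈ O →
        Tendsto (fun n : ℕ => Real.log ‖fderiv ℝ (liftn α a b θ n) z‖ / n) atTop (𝓝 L)

lemma skew_eq (α : Fin d → UnitAddCircle) (a : ℝ) (b : (Fin d → UnitAddCircle) → ℝ) :
    skew α a b = Pool.Agent.Helper95.AF.Fa α a b := by
  funext p
  refine Prod.ext rfl (Prod.ext ?_ ?_)
  · show p.2.1 + p.2.1 - p.2.2 + ((a * (fourier 1 p.2.1 : ℂ).im : ℝ) : UnitAddCircle) +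
      ((b p.1 : ℝ) : UnitAddCircle) = p.2.1 + p.2.1 - p.2.2 +
        ((a * (fourier 1 p.2.1 : ℂ).im + b p.1 : ℝ) : UnitAddCircle)
    rw [AddCircle.coe_add, add_assoc]
  · show p.2.1 + 0 = p.2.1
    exact add_zero _

lemma liftn_eq (α : Fin d → UnitAddCircle) (a : ℝ) (b : (Fin d → UnitAddCircle) → ℝ)
    (θ : Fin d → UnitAddCircle) (n : ℕ) :
    liftn α a b θ n = Pool.Agent.Helper95.AF.po a (Pool.Agent.Helper82.AN.sq α b θ) n := by
  induction n with
  | zero => rfl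
  | succ n ih =>
    funext z
    show lift a (b (θ + n • α)) (liftn α a b θ n z) =
      Pool.Agent.Helper95.AF.st a (b (θ + n • α))
        (Pool.Agent.Helper95.AF.po a (Pool.Agent.Helper82.AN.sq α b θ) n z)
    rw [ih]
    rfl

lemma good_eq (ε κ : ℝ) (α : Fin d → UnitAddCircle) (a q : ℝ) (b : (Fin d → UnitAddCircle) → ℝ)
    (h : Pool.Agent.Helper95.AU.GoodU ε κ α a q b) : Good ε κ α a q b := by
  have e : liftn α a b = fun θ n => Pool.Agent.Helper95.AF.po a (Pool.Agent.Helper82.AN.sq α b θ) n := by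
    funext θ n
    exact liftn_eq _ _ _ _ _
  unfold Good
  rw [skew_eq, e]
  exact h

/-- **Standard maps with an additive analytic quasi-periodic force, for all large parameters, all
forces of size between `exp (-|a|^(2-ε))` and `|a|` and all Diophantine frequency vectors at once:
ergodicity on a set of measure close to one, and on the whole phase space for forces of size at
least `|a|^(-1+ε)`.** Let `0 < γ`, `1/d < τ < 1/γ` and let `N` be the random function `noise γ w`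
(real analytic for `γ = 1`, entire for `γ > 1`), `e 0, .., e (k-1)` Hölder continuous and
`0 < ε < 2`. Almost surely, for all Diophantine `α` (almost all `α`), all `a` with `|a| ≥ A`, all `q`
with `exp (-|a|^(2-ε)) ≤ |q| ≤ |a|` and all `|s i| ≤ |a|` the map
`F(θ, x, y) = (θ + α, 2x - y + a sin 2πx + ∑ s i e i(θ) + q N(θ), x)` has the properties `Good`. -/
theorem result (d : ℕ) (γ τ : ℝ) (hd : 0 < d) (hγ : 0 < γ) (h1 : 1 / d < τ) (h2 : τ * γ < 1) :
    (∀ᵐ w ∂law d, (Summable fun i : (Fin d → ℤ) × Fin 2 => Real.exp (-(‖i.1‖ ^ γ)) * |w i|) ∧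
      ∃ R : ℝ, (∀ n : ℕ, ContDiff ℝ n (lf (noise γ w))) ∧ ∀ (n : ℕ) (x : Fin d → ℝ),
        ‖iteratedFDeriv ℝ n (lf (noise γ w)) x‖ ≤ R ^ (n + 1) * (n.factorial : ℝ) ^ (1 / γ)) ∧
    (∀ᵐ α : Fin d → UnitAddCircle, ∃ δ : ℝ, 0 < δ ∧ Dioph δ τ α) ∧
    ∀ (k : ℕ) (e : Fin k → (Fin d → UnitAddCircle) → ℝ) (ε : ℝ), (∀ i, Hoelder (e i)) →
      0 < ε → ε < 2 → ∃ κ : ℝ, 0 < κ ∧ ∀ᵐ w ∂law d, ∀ δ : ℝ, 0 < δ → ∃ A : ℝ,
        ∀ α : Fin d → UnitAddCircle, Dioph δ τ α → ∀ (a q : ℝ) (s : Fin k → ℝ), A ≤ |a| →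
          Real.exp (-|a| ^ (2 - ε)) ≤ |q| → |q| ≤ |a| → (∀ i, |s i| ≤ |a|) →
          Good ε κ α a q (fun θ => (∑ i, s i * e i θ) + q * noise γ w θ) := by
  refine ⟨?_, ?_, ?_⟩
  · filter_upwards [Pool.Agent.Helper82.AN.Hw_ae (d := d) hγ,
      Pool.Agent.Helper82.AN.eta_gev (d := d) hγ] with w h3 h4
    refine ⟨(ENNReal.summable_toReal h3).congr fun i => ?_, h4⟩
    exact ENNReal.toReal_ofReal (mul_nonneg (Real.exp_pos _).le (abs_nonneg _))
  · filter_upwards [Pool.Agent.Helper82.QP.dio_ae hd, Pool.Agent.Helper82.QP.ind_ae] with α h3 h4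
    obtain ⟨δ, hδ, h5⟩ := h3 τ h1
    exact ⟨δ, hδ, h4, h5⟩
  · intro k e ε he hε hε2
    obtain ⟨κ, hκ, h3⟩ := Pool.Agent.Helper95.AU.final hd hγ h1.le h2 he hε hε2
    refine ⟨κ, hκ, ?_⟩
    filter_upwards [h3] with w hw δ hδ
    obtain ⟨A, hA⟩ := hw δ hδ
    exact ⟨A, fun α hα a q s ha hq hq1 hs => good_eq _ _ _ _ _ _ (hA α hα.1 hα.2 a q s ha hq hq1 hs)⟩

end Pool.Agent.Results.MP_9ee088_an.AnalyticForce
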