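import Mathlib
import Pool.Agent.Helper82.EN.Fin3

set_option autoImplicit false
open MeasureTheory Real Set Filter Topology

namespace Pool.Agent.Results.MP_9ee088_an.EntropyComponent

/-- The standard map `S_a`, `|a| ≥ 10 ^ 20`: there is an invariant set `O` (possibly null) on which
`S_a` is ergodic, weakly mixing and hyperbolic, outside of which the Lyapunov exponent is at most `27`
almost everywhere and has integral at most `10 ^ 14 (log |a|) ^ 2 / |a|`, and which meets every ball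
of radius `2 / |a|` in positive measure unless it is null. For `|a| ≥ A δ` its measure is at least
`1 - (1 - h / log |a|) ^ 2 - δ`, where `h` is the integral of the exponent, and at least
`1 - (σ / (1 - σ)) ^ 2 - δ` if exponents `≥ (1 - σ) log |a|`, `σ ≤ 1/2`, occur on a set of positive
measure. -/
theorem result : ∃ A : ℝ → ℝ, ∀ a : ℝ, 10 ^ 20 ≤ |a| →
    ∀ S : UnitAddCircle × UnitAddCircle → UnitAddCircle × UnitAddCircle,
    (∀ x y : ℝ, S ((x : UnitAddCircle), (y : UnitAddCircle)) =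
      (((2 * x - y + a * Real.sin (2 * π * x) : ℝ) : UnitAddCircle), (x : UnitAddCircle))) →
    ∃ lam : UnitAddCircle × UnitAddCircle → ℝ, Measurable lam ∧
      (∀ᵐ p : ℝ × ℝ, Tendsto (fun n : ℕ => Real.log
          ‖fderiv ℝ ((fun q : ℝ × ℝ => (2 * q.1 - q.2 + a * Real.sin (2 * π * q.1), q.1))^[n]) p‖
            / n) atTop (𝓝 (lam ((p.1 : UnitAddCircle), (p.2 : UnitAddCircle))))) ∧
      ∃ O : Set (UnitAddCircle × UnitAddCircle), MeasurableSet O ∧ S ⁻¹' O = O ∧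
        (∃ L0 : ℝ, 0 < L0 ∧ ∀ᵐ z, z ∈ O → lam z = L0) ∧
        (∀ (ξ : ℂ) (h : UnitAddCircle × UnitAddCircle → ℂ), Measurable h →
          (∀ᵐ z, z ∈ O → h (S z) = ξ * h z) → ∃ w : ℂ, ∀ᵐ z, z ∈ O → h z = w) ∧
        (∀ᵐ z, 27 < lam z → z ∈ O) ∧
        ∫ z in Oᶜ, lam z ≤ 10 ^ 14 * (Real.log |a| ^ 2 / |a|) ∧
        (volume O ≠ 0 → ∀ z : UnitAddCircle × UnitAddCircle,
          volume (O ∩ Metric.ball z (2 / |a|)) ≠ 0) ∧
        ∀ δ : ℝ, 0 < δ → A δ ≤ |a| →
          1 - (1 - (∫ z, lam z) / Real.log |a|) ^ 2 - δ ≤ volume.real O ∧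
          (∀ σ : ℝ, 0 ≤ σ → σ ≤ 1 / 2 → volume {z | (1 - σ) * Real.log |a| ≤ lam z} ≠ 0 →
            1 - (σ / (1 - σ)) ^ 2 - δ ≤ volume.real O) :=
  Pool.Agent.Helper82.EN.main3

end Pool.Agent.Results.MP_9ee088_an.EntropyComponent
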