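import Mathlib
import Pool.Agent.Helper18.HA.Mod

set_option autoImplicit false
open MeasureTheory Real Set Filter Topology
open scoped ENNReal

namespace Pool.Agent.Results.MP_9ee088_an.FullHyperbolicity

/-- Law of the coefficients: independent, uniform on `[-1, 1]`, indexed by scale, cell and kind. -/
noncomputable def law : Measure (ℕ × ℕ × Bool → ℝ) :=
  Measure.infinitePi fun _ => (2 : ℝ≥0∞)⁻¹ • volume.restrict (Icc (-1) 1)

/-- `N (x - i / N)`, the difference taken modulo one in `[-1/2, 1/2]`. -/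
noncomputable def loc (N i : ℕ) (x : ℝ) : ℝ := N * ((x - i / N) - round (x - i / N))

/-- The random function `h_ω` on the circle: the sum over all scales `N = 2 ^ (l + 3)` and all cells
`0 ≤ i < N` of `k_l N ^ (-2) χ(u) (ω₀ u + ω₁ u ^ 2 / 2)`, `u = N (x - i / N)` (difference modulo one). -/
noncomputable def rough (χ : ℝ → ℝ) (k : ℕ → ℝ) (ω : ℕ × ℕ × Bool → ℝ) (x : ℝ) : ℝ :=
  ∑' l : ℕ, k l / ((2 ^ (l + 3) : ℕ) : ℝ) ^ 2 *
    ∑ i ∈ Finset.range (2 ^ (l + 3)), χ (loc (2 ^ (l + 3)) i x) *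
      (ω (l, i, false) * loc (2 ^ (l + 3)) i x + ω (l, i, true) * (loc (2 ^ (l + 3)) i x ^ 2 / 2))

/-- The ball of radius `C` of the Banach space `B_γ` of one-periodic functions `V` of class `C^2` whose second
derivative has a modulus of continuity `O(exp (-(log (1 / t))^γ))`. -/
structure InB (γ C : ℝ) (V : ℝ → ℝ) : Prop where
  smooth : ContDiff ℝ 2 V
  per : ∀ x, V (x + 1) = V x
  b0 : ∀ x, |V x| ≤ C
  b1 : ∀ x, |deriv V x| ≤ C
  b2 : ∀ x, |deriv (deriv V) x| ≤ C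
  md : ∀ x y, 0 < |x - y| → |x - y| < 1 →
    |deriv (deriv V) x - deriv (deriv V) y| ≤ C * Real.exp (-(Real.log (1 / |x - y|)) ^ γ)

/-- `G` is one-periodic of a Gevrey class: smooth with `|G^(n)| ≤ R^(n+1) (n!)^s` for some `R, s`
(for `s = 1` this means real analytic). -/
structure Gevrey (G : ℝ → ℝ) : Prop where
  smooth : ContDiff ℝ (⊤ : ℕ∞) G
  per : ∀ x, G (x + 1) = G x
  bd : ∃ R s : ℝ, ∀ (n : ℕ) (x : ℝ), |iteratedDeriv n G x| ≤ R ^ (n + 1) * (n.factorial : ℝ) ^ s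

/-- The normalised area of the torus is hyperbolic for `T(x, y) = (2x - y + a V'(x), x)`: for almost every point
of the plane (the universal cover of the torus) the Lyapunov exponent `lim (1/n) log ‖DT^n‖` exists and is
positive. -/
def Hyp (a : ℝ) (V : ℝ → ℝ) : Prop :=
  ∀ᵐ p : ℝ × ℝ, ∃ L : ℝ, 0 < L ∧ Tendsto (fun n : ℕ => Real.log
    ‖fderiv ℝ ((fun r : ℝ × ℝ => (2 * r.1 - r.2 + a * deriv V r.1, r.1))^[n]) p‖ / n) atTop (𝓝 L)

/-- One frozen random potential `h_ω` of class `C^2`: for every potential `V₀` in `B_γ`, almost every `ω`, and then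
simultaneously for all parameters `a ≠ 0`, all couplings `q ≠ 0` and all Gevrey (in particular real analytic) `G`,
the standard map `T(x, y) = (2x - y + a V'(x), x)` with `V = V₀ + G + q h_ω` has a positive Lyapunov exponent at
almost every point of the torus. -/
theorem result (χ : ℝ → ℝ) (hχ : ContDiff ℝ 3 χ) (hχ1 : ∀ t, |t| ≤ 1 / 2 → χ t = 1)
    (hχ0 : ∀ t, 1 ≤ |t| → χ t = 0) (k : ℕ → ℝ) (hk : ∀ l, 0 < k l)
    (hl : ∀ δ : ℝ, 0 < δ → ∀ᶠ l : ℕ in atTop, Real.exp (-(δ * (l : ℝ) ^ (1 / 3 : ℝ))) ≤ k l)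
    (hu : ∃ δ : ℝ, 0 < δ ∧ ∀ᶠ l : ℕ in atTop, k l ≤ Real.exp (-(l : ℝ) ^ δ)) :
    ∃ γ₁ C₁ : ℝ, 0 < γ₁ ∧ ∀ (γ C : ℝ) (V₀ : ℝ → ℝ), 0 < γ → InB γ C V₀ →
      ∀ᵐ ω ∂law, InB γ₁ C₁ (rough χ k ω) ∧
        ∀ (a q : ℝ) (G : ℝ → ℝ), a ≠ 0 → q ≠ 0 → Gevrey G →
          Hyp a (fun x => V₀ x + G x + q * rough χ k ω x) := by
  obtain ⟨γ₁, C₁, hγ₁, h⟩ := Pool.Agent.Helper18.HA.final hχ hχ1 hχ0 hk hl hu
  refine ⟨γ₁, C₁, hγ₁, fun γ C V₀ hγ hV => ?_⟩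
  have h2 := h γ C V₀ hγ ⟨hV.smooth, hV.per, hV.b0, hV.b1, hV.b2, hV.md⟩
  change ∀ᵐ ω ∂Pool.Agent.Helper95.PF.law, _
  filter_upwards [h2] with ω hω
  obtain ⟨w1, w2⟩ := hω
  exact ⟨⟨w1.smooth, w1.per, w1.b0, w1.b1, w1.b2, w1.md⟩,
    fun a q G ha hq hG => w2 a q G ha hq ⟨hG.smooth, hG.per, hG.bd⟩⟩

end Pool.Agent.Results.MP_9ee088_an.FullHyperbolicity
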